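import Pool.Agent.K3h9.SZ.Main

/-!
# Soulé's formula for schemes over finite fields that satisfy the conjecture of Tate and Beilinson
-/

set_option autoImplicit false

namespace Pool.Agent.K3h9.SZ

open Module Filter Topology Pool.Agent.W495.FM Pool.Agent.X303.TBDual

noncomputable section

variable {Ω V : Type} [Field Ω] [CharZero Ω] {H : Homology Ω V} {Y : V}

theorem eigenspace_eq {E : Type} [AddCommGroup E] [Module Ω E] (φ : E →ₗ[Ω] E)
    (h : ∀ e, φ (φ e - e) = φ e - e → φ e = e) :
    Module.End.maxGenEigenspace φ 1 = LinearMap.ker (φ - LinearMap.id) := by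
  ext e
  rw [Module.End.mem_maxGenEigenspace]
  have hss : ∀ x, (φ - LinearMap.id : E →ₗ[Ω] E) ((φ - LinearMap.id : E →ₗ[Ω] E) x) = 0 →
      (φ - LinearMap.id : E →ₗ[Ω] E) x = 0 := by
    intro x hx
    simp only [LinearMap.sub_apply, LinearMap.id_apply] at hx ⊢
    rw [h x (sub_eq_zero.1 hx), sub_self]
  have e1 : (φ - (1 : Ω) • (1 : Module.End Ω E)) = (φ - LinearMap.id : E →ₗ[Ω] E) := by
    rw [one_smul]
    rfl
  rw [e1, LinearMap.mem_ker]
  constructor
  · rintro ⟨k, hk⟩
    induction k with
    | zero =>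
      rw [pow_zero] at hk
      have : e = 0 := hk
      rw [this, map_zero]
    | succ k ih =>
      rcases k with _ | k
      · rw [zero_add, pow_one] at hk
        exact hk
      · apply ih
        rw [pow_succ'] at hk ⊢
        rw [pow_succ'] at hk
        exact hss _ hk
  · intro h0
    refine ⟨1, ?_⟩
    rw [pow_one]
    exact h0

theorem finrank_M (hH : IsHomology H) (h : TB H Y) (i j : ℤ) (φ : H.E Y i j →ₗ[Ω] H.E Y i j)
    (hφ : ∀ e, φ e = H.frob Y i j e) :
    finrank Ω (Module.End.maxGenEigenspace φ 1) = finrank ℚ (H.M Y i j) := by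
  have hfin := finite_M hH h i j
  have hE := hH.finite Y i j
  obtain ⟨h1, h2, h3⟩ := h i j
  rw [eigenspace_eq φ fun e he => by rw [hφ]; exact h3 e (by rw [hφ, hφ] at he; exact he)]
  let b := Module.finBasis ℚ (H.M Y i j)
  have hb := h2 _ b b.linearIndependent
  have hadd : ∀ x y, H.reg Y i j (x + y) = H.reg Y i j x + H.reg Y i j y := hH.add Y i j
  let ρ : H.M Y i j →+ H.E Y i j := AddMonoidHom.mk' (H.reg Y i j) hadd
  have hρ : ∀ (q : ℚ) x, H.reg Y i j (q • x) = (q : Ω) • H.reg Y i j x := by
    intro q x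
    exact map_ratCast_smul ρ ℚ Ω q x
  have hker : LinearMap.ker (φ - LinearMap.id) =
      Submodule.span Ω (Set.range fun k => H.reg Y i j (b k)) := by
    ext e
    rw [LinearMap.mem_ker, LinearMap.sub_apply, LinearMap.id_apply, sub_eq_zero, hφ, h1 e]
    constructor
    · intro he
      refine Submodule.span_le.2 ?_ he
      rintro _ ⟨x, rfl⟩
      have hx : H.reg Y i j x = ∑ k, ((b.repr x k : ℚ) : Ω) • H.reg Y i j (b k) := by
        have hx' : ρ x = ∑ k, ρ (b.repr x k • b k) := by
          conv_lhs => rw [← b.sum_repr x]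
          rw [map_sum]
        refine Eq.trans hx' ?_
        exact Finset.sum_congr rfl fun k _ => hρ _ _
      rw [SetLike.mem_coe, hx]
      exact Submodule.sum_mem _ fun k _ => Submodule.smul_mem _ _ (Submodule.subset_span ⟨k, rfl⟩)
    · intro he
      refine Submodule.span_mono ?_ he
      rintro _ ⟨k, rfl⟩
      exact ⟨b k, rfl⟩
  rw [hker, finrank_span_eq_card hb, Fintype.card_fin]

/-- the multiplicity as the dimension of the generalised eigenspace -/
theorem mult_eq {E : Type} [AddCommGroup E] [Module Ω E] {f : E → E} (φ : E →ₗ[Ω] E)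
    (hφ : ∀ e, φ e = f e) : mult Ω f = finrank Ω (Module.End.maxGenEigenspace φ 1) := by
  unfold mult
  have hit : ∀ (k : ℕ) (e : E), (fun x => f x - x)^[k] e = ((φ - (1 : Ω) • (1 : Module.End Ω E)) ^ k) e := by
    intro k e
    induction k with
    | zero => simp
    | succ k ih =>
      rw [Function.iterate_succ_apply', ih, pow_succ', Module.End.mul_apply, LinearMap.sub_apply, hφ]
      simp
  have hset : {e : E | ∃ k : ℕ, (fun x => f x - x)^[k] e = 0} =
      (Module.End.maxGenEigenspace φ 1 : Set E) := by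
    ext e
    simp only [Set.mem_ofPred_eq, SetLike.mem_coe, Module.End.mem_maxGenEigenspace, hit]
  rw [hset, Submodule.span_eq]

theorem soule_finite {W : Type} {T : Arith W} {X : W} (hH : IsHomology H) (h : TB H Y)
    (hX : IsOverFinite T H X Y) : Soule T X := by
  obtain ⟨f, hf, ho⟩ := hX.zeta
  have hM : ∀ n, Fin' ℚ (fun i => H.M Y i n) := by
    intro n
    refine ⟨fun i => finite_M hH h i n, ?_⟩
    refine (hX.bounded n).subset fun i hi => ?_
    simp only [Set.mem_ofPred_eq] at hi ⊢
    intro hE
    apply hi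
    refine ⟨fun x y => ?_⟩
    by_contra hxy
    exact reg_ne_zero h (sub_ne_zero.2 hxy) (Subsingleton.elim _ _)
  have hfin : ∀ n, Fin' ℚ (fun i => T.M X i n) := fun n =>
    (hM n).equiv fun i => (equiv_of_add (hX.iso i n)).map LinearEquiv.symm
  refine Soule.mk' hfin hf fun n => ?_
  rw [ho]
  congr 1
  unfold chi
  refine finsum_congr fun i => ?_
  obtain ⟨e⟩ := equiv_of_add (hX.iso i n)
  obtain ⟨φ, hφ⟩ := hH.lin Y i n
  rw [mult_eq φ fun e => (hφ e).symm, finrank_M hH h i n φ fun e => (hφ e).symm, e.finrank_eq]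

/-- Soulé's formula for the whole class. -/
theorem soule_class {W : Type} {T : Arith W} (hT : IsArith T) {S : W → Prop}
    (hS : ∀ X, S X → Soule T X) {X : W} (hX : Class T S X) : Soule T X := by
  induction hX with
  | fibre X h => exact hS X h
  | ring X F h => exact soule_ring h
  | sum X Z c Y r h _ _ hZ hY => exact soule_sum hT h hZ hY
  | closed Z X U h _ _ hX hU => exact soule_closed hT h hX hU
  | total Z X U h _ _ hZ hU => exact soule_total hT h hZ hU
  | opened Z X U h _ _ hZ hX => exact soule_opened hT h hZ hX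

end

end Pool.Agent.K3h9.SZ
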