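import Pool.Agent.K3h9.SZ.Defs

/-!
# Euler characteristics
-/

set_option autoImplicit false

namespace Pool.Agent.K3h9.SZ

open Module

noncomputable section

/-- A family of finite-dimensional vector spaces, almost all zero. -/
structure Fin' (K : Type) [Field K] (A : ℤ → Type) [∀ i, AddCommGroup (A i)] [∀ i, Module K (A i)] :
    Prop where
  finite : ∀ i, FiniteDimensional K (A i)
  bounded : {i : ℤ | ¬ Subsingleton (A i)}.Finite

/-- The alternating sum of the dimensions. -/
def ech (K : Type) [Field K] (A : ℤ → Type) [∀ i, AddCommGroup (A i)] [∀ i, Module K (A i)] : ℤ :=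
  ∑ᶠ i : ℤ, sgn i * (finrank K (A i) : ℤ)

theorem sgn_succ (i : ℤ) : sgn (i + 1) = - sgn i := by
  unfold sgn
  rcases Int.even_or_odd i with h | h
  · rw [if_pos h, if_neg (by rw [Int.not_even_iff_odd]; exact h.add_one)]
    norm_num
  · rw [if_pos h.add_one, if_neg (by rw [Int.not_even_iff_odd]; exact h)]

theorem sgn_two (i r : ℤ) : sgn (i + 2 * r) = sgn i := by
  unfold sgn
  have h : Even (i + 2 * r) ↔ Even i := by
    rw [Int.even_add]
    simp
  simp only [h]

section exact

variable {K : Type} [Field K] {A B C : Type} [AddCommGroup A] [Module K A] [AddCommGroup B]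
  [Module K B] [AddCommGroup C] [Module K C] {f : A →ₗ[K] B} {g : B →ₗ[K] C}

theorem finite_mid (h : Function.Exact f g) (hA : FiniteDimensional K A)
    (hC : FiniteDimensional K C) : FiniteDimensional K B := by
  have h1 : LinearMap.ker g = LinearMap.range f := h.linearMap_ker_eq
  have h2 : Module.Finite K (LinearMap.ker g) := by
    rw [h1]
    infer_instance
  have h3 : Module.Finite K (B ⧸ LinearMap.ker g) :=
    Module.Finite.equiv (LinearMap.quotKerEquivRange g).symm
  exact Module.Finite.of_submodule_quotient (LinearMap.ker g)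

theorem subsingleton_mid (h : Function.Exact f g) (hA : Subsingleton A) (hC : Subsingleton C) :
    Subsingleton B := by
  refine ⟨fun x y => ?_⟩
  have key : ∀ z : B, z = 0 := by
    intro z
    obtain ⟨w, rfl⟩ := (h z).1 (Subsingleton.elim _ _)
    rw [Subsingleton.elim w 0, map_zero]
  rw [key x, key y]

theorem finrank_mid (h : Function.Exact f g) (hB : FiniteDimensional K B) :
    finrank K B = finrank K (LinearMap.range f) + finrank K (LinearMap.range g) := by
  rw [← LinearMap.finrank_range_add_finrank_ker g, h.linearMap_ker_eq, add_comm]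

end exact

variable {K : Type} [Field K] {A B C : ℤ → Type} [∀ i, AddCommGroup (A i)] [∀ i, Module K (A i)]
  [∀ i, AddCommGroup (B i)] [∀ i, Module K (B i)] [∀ i, AddCommGroup (C i)] [∀ i, Module K (C i)]

/-- The middle terms. -/
theorem Fin'.mid (hA : Fin' K A) (hC : Fin' K C) (a : ∀ i, A i →ₗ[K] B i) (b : ∀ i, B i →ₗ[K] C i)
    (h : ∀ i, Function.Exact (a i) (b i)) : Fin' K B where
  finite i := finite_mid (h i) (hA.finite i) (hC.finite i)
  bounded := by
    refine (hA.bounded.union hC.bounded).subset fun i hi => ?_
    by_contra hcon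
    simp only [Set.mem_union, Set.mem_ofPred_eq, not_or, not_not] at hcon hi
    exact hi (subsingleton_mid (h i) hcon.1 hcon.2)

theorem Fin'.shift (hA : Fin' K A) (r : ℤ) : Fin' K fun i => A (i + r) where
  finite i := hA.finite _
  bounded := by
    have h := hA.bounded.preimage (f := fun i : ℤ => i + r) (add_left_injective r).injOn
    exact h

/-- Linear equivalences. -/
theorem Fin'.equiv (hA : Fin' K A) (e : ∀ i, Nonempty (A i ≃ₗ[K] B i)) : Fin' K B where
  finite i := by
    obtain ⟨e⟩ := e i
    have := hA.finite i
    exact Module.Finite.equiv e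
  bounded := by
    refine hA.bounded.subset fun i hi => ?_
    obtain ⟨e⟩ := e i
    simp only [Set.mem_ofPred_eq] at hi ⊢
    intro h
    exact hi e.symm.toEquiv.subsingleton

theorem ech_equiv (e : ∀ i, Nonempty (A i ≃ₗ[K] B i)) : ech K A = ech K B := by
  unfold ech
  refine finsum_congr fun i => ?_
  obtain ⟨e⟩ := e i
  rw [e.finrank_eq]

theorem Fin'.support (hA : Fin' K A) : (Function.support fun i => sgn i * (finrank K (A i) : ℤ)).Finite := by
  refine hA.bounded.subset fun i hi => ?_
  simp only [Set.mem_ofPred_eq]
  intro h
  apply hi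
  have : finrank K (A i) = 0 := finrank_zero_of_subsingleton
  simp only [this]
  simp

/-- The Euler characteristics of a long exact sequence. -/
theorem ech_exact (hA : Fin' K A) (hB : Fin' K B) (hC : Fin' K C) (a : ∀ i, A i →ₗ[K] B i)
    (b : ∀ i, B i →ₗ[K] C i) (d : ∀ i, C (i + 1) →ₗ[K] A i) (h1 : ∀ i, Function.Exact (a i) (b i))
    (h2 : ∀ i, Function.Exact (b (i + 1)) (d i)) (h3 : ∀ i, Function.Exact (d i) (a i)) :
    ech K B = ech K A + ech K C := by
  let ra : ℤ → ℤ := fun i => finrank K (LinearMap.range (a i))
  let rb : ℤ → ℤ := fun i => finrank K (LinearMap.range (b i))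
  let rd : ℤ → ℤ := fun i => finrank K (LinearMap.range (d i))
  have hra : (Function.support ra).Finite := by
    refine hB.bounded.subset fun i hi => ?_
    simp only [Set.mem_ofPred_eq]
    intro h
    apply hi
    have : finrank K (LinearMap.range (a i)) = 0 := finrank_zero_of_subsingleton
    simp only [ra, this, Nat.cast_zero]
  have hrb : (Function.support rb).Finite := by
    refine hC.bounded.subset fun i hi => ?_
    simp only [Set.mem_ofPred_eq]
    intro h
    apply hi
    have : finrank K (LinearMap.range (b i)) = 0 := finrank_zero_of_subsingleton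
    simp only [rb, this, Nat.cast_zero]
  have hrd : (Function.support rd).Finite := by
    refine hA.bounded.subset fun i hi => ?_
    simp only [Set.mem_ofPred_eq]
    intro h
    apply hi
    have : finrank K (LinearMap.range (d i)) = 0 := finrank_zero_of_subsingleton
    simp only [rd, this, Nat.cast_zero]
  have eB : ∀ i, (finrank K (B i) : ℤ) = ra i + rb i := by
    intro i
    have := finrank_mid (h1 i) (hB.finite i)
    simp only [ra, rb]
    exact_mod_cast this
  have eA : ∀ i, (finrank K (A i) : ℤ) = rd i + ra i := by
    intro i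
    have := finrank_mid (h3 i) (hA.finite i)
    simp only [ra, rd]
    exact_mod_cast this
  have eC : ∀ i, (finrank K (C i) : ℤ) = rb i + rd (i - 1) := by
    intro i
    obtain ⟨i, rfl⟩ : ∃ k, i = k + 1 := ⟨i - 1, by ring⟩
    have := finrank_mid (h2 i) (hC.finite _)
    rw [add_sub_cancel_right]
    simp only [rb, rd]
    exact_mod_cast this
  have sup : ∀ f : ℤ → ℤ, (Function.support f).Finite → (Function.support fun i => sgn i * f i).Finite := by
    intro f hf
    refine hf.subset fun i hi => ?_
    intro h
    apply hi
    simp only [h, mul_zero]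
  have hrd' : (Function.support fun i => rd (i - 1)).Finite := by
    have := hrd.preimage (f := fun i : ℤ => i - 1) (sub_left_injective (b := 1)).injOn
    exact this
  unfold ech
  simp only [eB, eA, eC, mul_add]
  rw [finsum_add_distrib (sup _ hra) (sup _ hrb), finsum_add_distrib (sup _ hrd) (sup _ hra),
    finsum_add_distrib (sup _ hrb) (sup _ hrd')]
  have e1 : ∑ᶠ i : ℤ, sgn i * rd (i - 1) = ∑ᶠ i : ℤ, - (sgn i * rd i) := by
    rw [← finsum_comp_equiv (Equiv.addRight (1 : ℤ))]
    refine finsum_congr fun i => ?_
    simp only [Equiv.coe_addRight, add_sub_cancel_right, sgn_succ]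
    ring
  rw [e1, finsum_neg_distrib]
  ring

/-- Shifts by even numbers. -/
theorem ech_shift (r : ℤ) : ech K (fun i => A (i + 2 * r)) = ech K A := by
  unfold ech
  rw [← finsum_comp_equiv (Equiv.addRight (2 * r)) (f := fun i => sgn i * (finrank K (A i) : ℤ))]
  refine finsum_congr fun i => ?_
  simp only [Equiv.coe_addRight, sgn_two]
  rfl

variable {I : Type} [Fintype I] {D : I → ℤ → Type} [∀ l i, AddCommGroup (D l i)]
  [∀ l i, Module K (D l i)]

theorem Fin'.pi (hD : ∀ l, Fin' K (D l)) : Fin' K fun i => ∀ l, D l i where
  finite i := by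
    have := fun l => (hD l).finite i
    infer_instance
  bounded := by
    refine (Set.finite_iUnion fun l => (hD l).bounded).subset fun i hi => ?_
    by_contra hcon
    simp only [Set.mem_iUnion, Set.mem_ofPred_eq, not_exists, not_not] at hcon hi
    exact hi inferInstance

theorem ech_pi (hD : ∀ l, Fin' K (D l)) : ech K (fun i => ∀ l, D l i) = ∑ l, ech K (D l) := by
  unfold ech
  rw [← finsum_sum_comm _ _ fun l _ => (hD l).support]
  refine finsum_congr fun i => ?_
  have := fun l => (hD l).finite i
  rw [Module.finrank_pi_fintype, Nat.cast_sum, Finset.mul_sum]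

theorem Fin'.prod (hA : Fin' K A) (hB : Fin' K B) : Fin' K fun i => A i × B i where
  finite i := by
    have := hA.finite i
    have := hB.finite i
    infer_instance
  bounded := by
    refine (hA.bounded.union hB.bounded).subset fun i hi => ?_
    by_contra hcon
    simp only [Set.mem_union, Set.mem_ofPred_eq, not_or, not_not] at hcon hi
    obtain ⟨h1, h2⟩ := hcon
    exact hi inferInstance

/-- Factors of finite products. -/
theorem Fin'.fst (h : Fin' K fun i => A i × B i) : Fin' K A where
  finite i := by
    have := h.finite i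
    exact Module.Finite.of_surjective (LinearMap.fst K (A i) (B i)) LinearMap.fst_surjective
  bounded := by
    refine h.bounded.subset fun i hi => ?_
    simp only [Set.mem_ofPred_eq] at hi ⊢
    intro h'
    exact hi (Function.Surjective.subsingleton (LinearMap.fst_surjective (R := K) (M := A i) (M₂ := B i)))

theorem ech_prod (hA : Fin' K A) (hB : Fin' K B) : ech K (fun i => A i × B i) = ech K A + ech K B := by
  unfold ech
  rw [← finsum_add_distrib hA.support hB.support]
  refine finsum_congr fun i => ?_
  have := hA.finite i
  have := hB.finite i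
  rw [Module.finrank_prod, Nat.cast_add, mul_add]

end

end Pool.Agent.K3h9.SZ
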