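import Mathlib
import Pool.Agent.W495.FM.HomDefs

/-!
# Soulé's formula for the orders of the zeta functions of arithmetic schemes: definitions

An arithmetic scheme is a separated scheme of finite type over `ℤ`.
-/

namespace Pool.Agent.K3h9.SZ

open Module NumberField Pool.Agent.W495.FM

noncomputable section

/-- Data for the arithmetic schemes `X : W`: the rational motivic homology groups
`M X i j = H_i^M(X, ℚ(j)) = CH_j(X, i - 2 j) ⊗ ℚ` (`j` is the absolute dimension of the cycles, that is
the Krull dimension), and the number `pts X q` of the closed points of `X` with a residue field with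
`q` elements. If `X` is of pure Krull dimension `d`, then `M X i j = CH^(d - j)(X, i - 2 j) ⊗ ℚ`, and if `X`
is moreover regular this is the motivic cohomology group `H^(2 d - i)(X, ℚ(d - j))`. -/
structure Arith (W : Type) where
  M : W → ℤ → ℤ → Type
  [grp : ∀ X i j, AddCommGroup (M X i j)]
  [mod : ∀ X i j, Module ℚ (M X i j)]
  pts : W → ℕ → ℕ

attribute [instance] Arith.grp Arith.mod

/-- The Euler product of the numbers `c q` (of closed points with residue fields of order `q`):
the product of `(1 - q ^ (-s)) ^ (- c q)` over all `q`. -/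
def euler (c : ℕ → ℕ) (s : ℂ) : ℂ := ∏' q : ℕ, ((1 - (q : ℂ) ^ (-s))⁻¹) ^ c q

/-- `f` is the meromorphic continuation to `ℂ` of the Euler product of the numbers `c q`. -/
def IsZeta (c : ℕ → ℕ) (f : ℂ → ℂ) : Prop :=
  Meromorphic f ∧ ∃ σ : ℝ, ∀ s : ℂ, σ < s.re → f s = euler c s

variable {W : Type}

/-- The number of closed points of norm `q` is at most a power of `q`, and zero for `q < 2`. -/
def IsArith (T : Arith W) : Prop :=
  ∀ X, (∀ q < 2, T.pts X q = 0) ∧ ∃ k : ℕ, ∀ q, T.pts X q ≤ q ^ k

/-- The sign `(-1) ^ (i + 1)`. -/
def sgn (i : ℤ) : ℤ := if Even i then -1 else 1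

/-- `∑_i (-1) ^ (i + 1) dim H_i^M(X, ℚ(n))`. -/
def chi (T : Arith W) (X : W) (n : ℤ) : ℤ := ∑ᶠ i : ℤ, sgn i * (finrank ℚ (T.M X i n) : ℤ)

/-- **Soulé's formula** for `X` at all integers: the motivic homology groups of `X` with rational
coefficients have finite dimension, for each twist only finitely many are not zero, the zeta function
of `X` has a meromorphic continuation to `ℂ`, and its order at the integer `n` is
`∑_i (-1) ^ (i + 1) dim H_i^M(X, ℚ(n))`.

For regular `X` of pure Krull dimension `d` one has `H_i^M(X, ℚ(0)) = H^(2 d - i)(X, ℚ(d))`; so for `n = 0`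
this is the assertion of the question: the order of the zeta function at `0` is
`∑_i (-1) ^ (i + 1) dim H^(2 d - i)(X, ℚ(d))`. -/
structure Soule (T : Arith W) (X : W) : Prop where
  finite : ∀ i j, FiniteDimensional ℚ (T.M X i j)
  bounded : ∀ j, {i : ℤ | ¬ Subsingleton (T.M X i j)}.Finite
  continuation : ∃ f, IsZeta (T.pts X) f
  order : ∀ f, IsZeta (T.pts X) f → ∀ n : ℤ, meromorphicOrderAt f n = (chi T X n : ℤ)

/-- `Z` is a closed subscheme of `X` with complement `U`: the long exact localisation sequences of
motivic homology, and the closed points of `X` are those of `Z` and those of `U`. -/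
structure IsLoc (T : Arith W) (Z X U : W) : Prop where
  seq : ∀ j : ℤ, ∃ (a : ∀ i, T.M Z i j → T.M X i j) (b : ∀ i, T.M X i j → T.M U i j)
    (d : ∀ i, T.M U (i + 1) j → T.M Z i j), ∀ i, IsAdd (a i) ∧ IsAdd (b i) ∧ IsAdd (d i) ∧
      Function.Exact (a i) (b i) ∧ Function.Exact (b (i + 1)) (d i) ∧ Function.Exact (d i) (a i)
  pts : ∀ q, T.pts X q = T.pts Z q + T.pts U q

/-- With rational coefficients, the sum of the motive of `X` and of the motives of the `Z k`, twisted
`c k` times, is the sum of the motives of the `Y l`, twisted `r l` times: an isomorphism of the motivic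
homology groups (the groups of `Y l` occur in the degrees `i + 2 r l` with the twists `j + r l`), and the
corresponding identity of the Euler products, where the zeta function of `Y l` is taken at `s + r l`.
For instance `X` is an affine bundle of rank `-r` over `Y`, or a projective bundle, or a blow-up, or the
motives of the generic fibres are Artin-Tate motives and places with bad reduction are removed. -/
structure IsSum (T : Arith W) {I J : Type} [Fintype I] [Fintype J] (X : W) (Z : J → W) (c : J → ℤ)
    (Y : I → W) (r : I → ℤ) : Prop where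
  iso : ∀ i j : ℤ, ∃ f : T.M X i j × (∀ k, T.M (Z k) (i + 2 * c k) (j + c k)) →
    ∀ l, T.M (Y l) (i + 2 * r l) (j + r l), IsAdd f ∧ Function.Bijective f
  zeta : ∃ σ : ℝ, ∀ s : ℂ, σ < s.re → euler (T.pts X) s * ∏ k, euler (T.pts (Z k)) (s + c k) =
    ∏ l, euler (T.pts (Y l)) (s + r l)

/-- The orders of the Dedekind zeta function of the number field `F` with `r₁` real and `r₂` complex
places at the integers `n` (Hecke): `0` for `n > 1`, `-1` for `n = 1`, `r₁ + r₂ - 1` for `n = 0`, `r₁ + r₂`
for even `n < 0`, `r₂` for odd `n < 0`. -/
def dedekindOrder (F : Type) [Field F] [NumberField F] (n : ℤ) : ℤ :=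
  if 1 ≤ n then (if n = 1 then -1 else 0) else InfinitePlace.nrComplexPlaces F +
    (if Even n then (InfinitePlace.nrRealPlaces F : ℤ) else 0) - (if n = 0 then 1 else 0)

/-- `X` is the spectrum of the ring of integers of the number field `F`. Its closed points are the
maximal ideals; the motivic homology groups with rational coefficients are `H_2(X, ℚ(1)) = ℚ`, the groups
`H_1(X, ℚ(j)) = K_(1 - 2 j)(𝓞 F) ⊗ ℚ`, `j ≤ 0`, with the ranks of Dirichlet, Quillen and Borel, and zero;
and the Dedekind zeta function has a meromorphic continuation, with the orders of Hecke. -/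
structure IsNumberRing (T : Arith W) (X : W) (F : Type) [Field F] [NumberField F] : Prop where
  pts : ∀ q, T.pts X q =
    Nat.card {P : Ideal (𝓞 F) // P.IsMaximal ∧ Ideal.absNorm P = q}
  finite : ∀ i j, FiniteDimensional ℚ (T.M X i j)
  zero : ∀ i j, ¬ (i = 2 ∧ j = 1) → ¬ (i = 1 ∧ j ≤ 0) → Subsingleton (T.M X i j)
  top : finrank ℚ (T.M X 2 1) = 1
  rank : ∀ j ≤ 0, (finrank ℚ (T.M X 1 j) : ℤ) = dedekindOrder F j
  zeta : ∃ f, IsZeta (T.pts X) f ∧ ∀ n : ℤ, meromorphicOrderAt f n = (dedekindOrder F n : ℤ)

/-- The multiplicity of the eigenvalue one of the linear map `f`: the dimension of the space of the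
vectors that are killed by a power of `f - 1`. -/
def mult (K : Type) [Field K] {E : Type} [AddCommGroup E] [Module K E] (f : E → E) : ℕ :=
  finrank K (Submodule.span K {e : E | ∃ k : ℕ, (fun x => f x - x)^[k] e = 0})

/-- `X` is the scheme `Y : V` over a finite field, where `H : Homology Ω V` are data of motivic and
`ℓ`-adic homology for schemes over finite fields of the same characteristic (`W495.FM.HomDefs`): the
motivic homology groups are the same, for each twist only finitely many of the `ℓ`-adic homology groups
are not zero, and the zeta function is a rational function of `q ^ (-s)`, hence meromorphic, whose order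
at `n` is the alternating sum of the multiplicities of the eigenvalue one of the Frobenius on the
`ℓ`-adic homology groups with the twist `n` (Grothendieck). -/
structure IsOverFinite (T : Arith W) {Ω V : Type} [Field Ω] (H : Homology Ω V) (X : W) (Y : V) :
    Prop where
  iso : ∀ i j, ∃ f : T.M X i j → H.M Y i j, IsAdd f ∧ Function.Bijective f
  bounded : ∀ j, {i : ℤ | ¬ Subsingleton (H.E Y i j)}.Finite
  zeta : ∃ f, IsZeta (T.pts X) f ∧ ∀ n : ℤ, meromorphicOrderAt f n =
    ((∑ᶠ i : ℤ, sgn i * (mult Ω (H.frob Y i n) : ℤ) : ℤ) : WithTop ℤ)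

/-- The smallest class of arithmetic schemes that contains

* the schemes (over finite fields) with the property `S`,
* the spectra of the rings of integers of all number fields,
* the schemes `X` whose motive, with rational coefficients, plus a finite sum of twists of motives of
  members, is a finite sum of twists of motives of members (affine and projective bundles, blow-ups),
* all of a closed subscheme `Z` of `X`, `X` and the complement `U` if it contains two of them. -/
inductive Class (T : Arith W) (S : W → Prop) : W → Prop
  | fibre (X : W) (h : S X) : Class T S X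
  | ring (X : W) (F : Type) [Field F] [NumberField F] (h : IsNumberRing T X F) : Class T S X
  | sum {I J : Type} [Fintype I] [Fintype J] (X : W) (Z : J → W) (c : J → ℤ) (Y : I → W) (r : I → ℤ)
      (h : IsSum T X Z c Y r) (hZ : ∀ k, Class T S (Z k)) (hY : ∀ l, Class T S (Y l)) : Class T S X
  | closed (Z X U : W) (h : IsLoc T Z X U) (hX : Class T S X) (hU : Class T S U) : Class T S Z
  | total (Z X U : W) (h : IsLoc T Z X U) (hZ : Class T S Z) (hU : Class T S U) : Class T S X
  | opened (Z X U : W) (h : IsLoc T Z X U) (hZ : Class T S Z) (hX : Class T S X) : Class T S U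

end

end Pool.Agent.K3h9.SZ
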