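import Pool.Agent.K3h9.SZ.Defs

/-!
# Euler products and their meromorphic continuations
-/

set_option autoImplicit false

namespace Pool.Agent.K3h9.SZ

open Module Filter Topology

noncomputable section

/-- the logarithms of the factors -/
def lfac (c : ℕ → ℕ) (s : ℂ) (q : ℕ) : ℂ := (c q : ℂ) * (-Complex.log (1 - (q : ℂ) ^ (-s)))

theorem norm_le {q : ℕ} (hq : 2 ≤ q) {s : ℂ} (hs : 1 ≤ s.re) : ‖(q : ℂ) ^ (-s)‖ ≤ 1 / 2 := by
  rw [Complex.norm_natCast_cpow_of_pos (by omega), Complex.neg_re]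
  have hq' : (2 : ℝ) ≤ q := by exact_mod_cast hq
  calc (q : ℝ) ^ (-s.re) ≤ (q : ℝ) ^ (-1 : ℝ) :=
        Real.rpow_le_rpow_of_exponent_le (by linarith) (by linarith)
    _ = (q : ℝ)⁻¹ := Real.rpow_neg_one _
    _ ≤ 1 / 2 := by
        rw [one_div]
        exact inv_anti₀ (by norm_num) hq'

theorem fac_ne {q : ℕ} (hq : 2 ≤ q) {s : ℂ} (hs : 1 ≤ s.re) : (1 - (q : ℂ) ^ (-s)) ≠ 0 := by
  intro h
  have h1 : (q : ℂ) ^ (-s) = 1 := (sub_eq_zero.1 h).symm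
  have h2 := norm_le hq hs
  rw [h1, norm_one] at h2
  norm_num at h2

variable {c : ℕ → ℕ}

theorem summable_lfac (hc : ∀ q, q < 2 → c q = 0) {k : ℕ} (hk : ∀ q, c q ≤ q ^ k) {s : ℂ}
    (hs : (k : ℝ) + 1 < s.re) : Summable (lfac c s) := by
  have hs1 : 1 ≤ s.re := by
    have : (0 : ℝ) ≤ k := Nat.cast_nonneg k
    linarith
  have h1 : Summable fun q : ℕ => 3 / 2 * (q : ℝ) ^ ((k : ℝ) - s.re) :=
    (Real.summable_nat_rpow.2 (by linarith)).mul_left _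
  refine Summable.of_norm_bounded h1 fun q => ?_
  rcases lt_or_ge q 2 with hq | hq
  · rw [lfac, hc q hq, Nat.cast_zero, zero_mul, norm_zero]
    positivity
  · have hq0 : (0 : ℝ) < q := by
      have : (2 : ℝ) ≤ q := by exact_mod_cast hq
      linarith
    rw [lfac, norm_mul, norm_neg, Complex.norm_natCast]
    have h2 : ‖Complex.log (1 - (q : ℂ) ^ (-s))‖ ≤ 3 / 2 * ‖(q : ℂ) ^ (-s)‖ := by
      have h3 := Complex.norm_log_one_add_half_le_self (z := -((q : ℂ) ^ (-s)))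
        (by rw [norm_neg]; exact norm_le hq hs1)
      rw [norm_neg] at h3
      rwa [← sub_eq_add_neg] at h3
    have h4 : (c q : ℝ) ≤ (q : ℝ) ^ (k : ℝ) := by
      rw [Real.rpow_natCast]
      exact_mod_cast hk q
    have h5 : ‖(q : ℂ) ^ (-s)‖ = (q : ℝ) ^ (-s.re) := by
      rw [Complex.norm_natCast_cpow_of_pos (by omega), Complex.neg_re]
    calc (c q : ℝ) * ‖Complex.log (1 - (q : ℂ) ^ (-s))‖
        ≤ (q : ℝ) ^ (k : ℝ) * (3 / 2 * ‖(q : ℂ) ^ (-s)‖) := by gcongr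
      _ = 3 / 2 * (q : ℝ) ^ ((k : ℝ) - s.re) := by
          rw [h5, sub_eq_add_neg, Real.rpow_add hq0]
          ring

theorem exp_lfac (hc : ∀ q, q < 2 → c q = 0) {s : ℂ} (hs : 1 ≤ s.re) (q : ℕ) :
    Complex.exp (lfac c s q) = ((1 - (q : ℂ) ^ (-s))⁻¹) ^ c q := by
  rcases lt_or_ge q 2 with hq | hq
  · rw [lfac, hc q hq, Nat.cast_zero, zero_mul, Complex.exp_zero, pow_zero]
  · rw [lfac, Complex.exp_nat_mul, Complex.exp_neg, Complex.exp_log (fac_ne hq hs)]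

theorem euler_eq (hc : ∀ q, q < 2 → c q = 0) {k : ℕ} (hk : ∀ q, c q ≤ q ^ k) {s : ℂ}
    (hs : (k : ℝ) + 1 < s.re) : euler c s = Complex.exp (∑' q, lfac c s q) := by
  have hs1 : 1 ≤ s.re := by
    have : (0 : ℝ) ≤ k := Nat.cast_nonneg k
    linarith
  have h1 := (summable_lfac hc hk hs).hasSum.cexp
  have h2 : (Complex.exp ∘ lfac c s) = fun q : ℕ => ((1 - (q : ℂ) ^ (-s))⁻¹) ^ c q :=
    funext fun q => exp_lfac hc hs1 q
  rw [h2] at h1
  exact h1.tprod_eq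

theorem euler_ne (hc : ∀ q, q < 2 → c q = 0) {k : ℕ} (hk : ∀ q, c q ≤ q ^ k) {s : ℂ}
    (hs : (k : ℝ) + 1 < s.re) : euler c s ≠ 0 := by
  rw [euler_eq hc hk hs]
  exact Complex.exp_ne_zero _

theorem euler_add {c₁ c₂ : ℕ → ℕ} (hc : ∀ q, c q = c₁ q + c₂ q)
    (h1 : ∀ q, q < 2 → c₁ q = 0) (h2 : ∀ q, q < 2 → c₂ q = 0) {k₁ k₂ : ℕ}
    (hk₁ : ∀ q, c₁ q ≤ q ^ k₁) (hk₂ : ∀ q, c₂ q ≤ q ^ k₂) {s : ℂ}
    (hs₁ : (k₁ : ℝ) + 1 < s.re) (hs₂ : (k₂ : ℝ) + 1 < s.re) :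
    euler c s = euler c₁ s * euler c₂ s := by
  have hs1 : 1 ≤ s.re := by
    have : (0 : ℝ) ≤ k₁ := Nat.cast_nonneg k₁
    linarith
  have e1 := summable_lfac h1 hk₁ hs₁
  have e2 := summable_lfac h2 hk₂ hs₂
  rw [euler_eq h1 hk₁ hs₁, euler_eq h2 hk₂ hs₂, ← Complex.exp_add, ← e1.tsum_add e2]
  have h3 : (fun q => lfac c₁ s q + lfac c₂ s q) = lfac c s := by
    funext q
    simp only [lfac, hc q]
    push_cast
    ring
  have h4 := (e1.add e2).hasSum.cexp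
  rw [h3] at h4
  have hc0 : ∀ q, q < 2 → c q = 0 := fun q hq => by rw [hc, h1 q hq, h2 q hq]
  have h2' : (Complex.exp ∘ lfac c s) = fun q : ℕ => ((1 - (q : ℂ) ^ (-s))⁻¹) ^ c q :=
    funext fun q => exp_lfac hc0 hs1 q
  rw [h2'] at h4
  rw [h3]
  exact h4.tprod_eq

/-- The order of the continuation is unique. -/
theorem order_unique {f g : ℂ → ℂ} (hf : IsZeta c f) (hg : IsZeta c g) (z : ℂ) :
    meromorphicOrderAt f z = meromorphicOrderAt g z := by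
  obtain ⟨hf, σ, hσ⟩ := hf
  obtain ⟨hg, τ, hτ⟩ := hg
  have hm : MeromorphicOn (f - g) Set.univ := fun x _ => (hf x).sub (hg x)
  have h0 : meromorphicOrderAt (f - g) ((max σ τ + 1 : ℝ) : ℂ) = ⊤ := by
    rw [meromorphicOrderAt_eq_top_iff]
    have hopen : IsOpen {s : ℂ | max σ τ < s.re} := isOpen_lt continuous_const Complex.continuous_re
    have hmem : ((max σ τ + 1 : ℝ) : ℂ) ∈ {s : ℂ | max σ τ < s.re} := by
      simp only [Set.mem_ofPred_eq, Complex.ofReal_re]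
      linarith
    have h1 : ∀ᶠ s in 𝓝 ((max σ τ + 1 : ℝ) : ℂ), max σ τ < s.re := hopen.mem_nhds hmem
    filter_upwards [nhdsWithin_le_nhds h1] with s hs
    rw [Pi.sub_apply, hσ s ((le_max_left _ _).trans_lt hs), hτ s ((le_max_right _ _).trans_lt hs),
      sub_self]
  have h1 : meromorphicOrderAt (f - g) z = ⊤ := by
    by_contra hcon
    have h2 := (hm.exists_meromorphicOrderAt_ne_top_iff_forall isConnected_univ).1
      ⟨⟨z, Set.mem_univ z⟩, hcon⟩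
    exact h2 ⟨_, Set.mem_univ _⟩ h0
  rw [meromorphicOrderAt_eq_top_iff] at h1
  apply meromorphicOrderAt_congr
  filter_upwards [h1] with s hs
  exact sub_eq_zero.1 hs

end

end Pool.Agent.K3h9.SZ
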