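import Pool.Agent.K3h9.SZ.Euler
import Pool.Agent.K3h9.SZ.Chi
import Pool.Agent.X303.TBDual

/-!
# Soulé's formula for the class generated by rings of integers and schemes over finite fields
-/

set_option autoImplicit false

namespace Pool.Agent.K3h9.SZ

open Module Filter Topology Pool.Agent.W495.FM

noncomputable section

variable {W : Type} {T : Arith W}

theorem chi_eq (X : W) (n : ℤ) : chi T X n = ech ℚ (fun i => T.M X i n) := rfl

/-- Soulé's formula from one continuation. -/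
theorem Soule.mk' {X : W} (hfin : ∀ n, Fin' ℚ (fun i => T.M X i n)) {f : ℂ → ℂ}
    (hf : IsZeta (T.pts X) f) (ho : ∀ n : ℤ, meromorphicOrderAt f n = (chi T X n : ℤ)) :
    Soule T X where
  finite i j := (hfin j).finite i
  bounded j := (hfin j).bounded
  continuation := ⟨f, hf⟩
  order g hg n := by rw [← order_unique hf hg, ho]

theorem Soule.fin' {X : W} (h : Soule T X) (n : ℤ) : Fin' ℚ (fun i => T.M X i n) where
  finite i := h.finite i n
  bounded := h.bounded n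

/-- additive maps are linear -/
theorem lin_of_add {A B : Type} [AddCommGroup A] [Module ℚ A] [AddCommGroup B] [Module ℚ B]
    {f : A → B} (h : IsAdd f) : ∃ g : A →ₗ[ℚ] B, ∀ x, g x = f x :=
  ⟨(AddMonoidHom.mk' f h).toRatLinearMap, fun _ => rfl⟩

theorem equiv_of_add {A B : Type} [AddCommGroup A] [Module ℚ A] [AddCommGroup B] [Module ℚ B]
    (h : ∃ f : A → B, IsAdd f ∧ Function.Bijective f) : Nonempty (A ≃ₗ[ℚ] B) := by
  obtain ⟨f, hf, hb⟩ := h
  exact ⟨LinearEquiv.ofBijective (AddMonoidHom.mk' f hf).toRatLinearMap hb⟩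

theorem seq_lin {Z X U : W} (h : IsLoc T Z X U) (j : ℤ) :
    ∃ (a : ∀ i, T.M Z i j →ₗ[ℚ] T.M X i j) (b : ∀ i, T.M X i j →ₗ[ℚ] T.M U i j)
    (d : ∀ i, T.M U (i + 1) j →ₗ[ℚ] T.M Z i j),
    ∀ i, Function.Exact (a i) (b i) ∧ Function.Exact (b (i + 1)) (d i) ∧
      Function.Exact (d i) (a i) := by
  obtain ⟨a, b, d, h⟩ := h.seq j
  choose a' ha using fun i => lin_of_add (h i).1
  choose b' hb using fun i => lin_of_add (h i).2.1
  choose d' hd using fun i => lin_of_add (h i).2.2.1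
  have ea : ∀ i, (a' i : T.M Z i j → T.M X i j) = a i := fun i => funext (ha i)
  have eb : ∀ i, (b' i : T.M X i j → T.M U i j) = b i := fun i => funext (hb i)
  have ed : ∀ i, (d' i : T.M U (i + 1) j → T.M Z i j) = d i := fun i => funext (hd i)
  refine ⟨a', b', d', fun i => ?_⟩
  rw [ea, eb, eb, ed]
  exact (h i).2.2.2

theorem chi_loc {Z X U : W} (h : IsLoc T Z X U) (n : ℤ) (hZ : Fin' ℚ (fun i => T.M Z i n))
    (hX : Fin' ℚ (fun i => T.M X i n)) (hU : Fin' ℚ (fun i => T.M U i n)) :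
    chi T X n = chi T Z n + chi T U n := by
  obtain ⟨a, b, d, h⟩ := seq_lin h n
  exact ech_exact hZ hX hU a b d (fun i => (h i).1) (fun i => (h i).2.1) (fun i => (h i).2.2)

theorem fin_total {Z X U : W} (h : IsLoc T Z X U) (n : ℤ) (hZ : Fin' ℚ (fun i => T.M Z i n))
    (hU : Fin' ℚ (fun i => T.M U i n)) : Fin' ℚ (fun i => T.M X i n) := by
  obtain ⟨a, b, d, h⟩ := seq_lin h n
  exact hZ.mid hU a b fun i => (h i).1

theorem fin_closed {Z X U : W} (h : IsLoc T Z X U) (n : ℤ) (hX : Fin' ℚ (fun i => T.M X i n))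
    (hU : Fin' ℚ (fun i => T.M U i n)) : Fin' ℚ (fun i => T.M Z i n) := by
  obtain ⟨a, b, d, h⟩ := seq_lin h n
  exact (hU.shift 1).mid hX d a fun i => (h i).2.2

theorem fin_opened {Z X U : W} (h : IsLoc T Z X U) (n : ℤ) (hZ : Fin' ℚ (fun i => T.M Z i n))
    (hX : Fin' ℚ (fun i => T.M X i n)) : Fin' ℚ (fun i => T.M U i n) := by
  obtain ⟨a, b, d, h⟩ := seq_lin h n
  have h1 : Fin' ℚ (fun i => T.M U (i + 1) n) :=
    (hX.shift 1).mid hZ (fun i => b (i + 1)) d fun i => (h i).2.1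
  have h2 := h1.shift (-1)
  refine h2.equiv fun i => ?_
  have h3 : i + -1 + 1 = i := by ring
  rw [h3]
  exact ⟨LinearEquiv.refl _ _⟩

theorem euler_loc (hT : IsArith T) {Z X U : W} (h : IsLoc T Z X U) :
    ∃ σ : ℝ, ∀ s : ℂ, σ < s.re →
      euler (T.pts X) s = euler (T.pts Z) s * euler (T.pts U) s ∧
      euler (T.pts Z) s ≠ 0 ∧ euler (T.pts U) s ≠ 0 := by
  obtain ⟨k, hk⟩ := (hT Z).2
  obtain ⟨l, hl⟩ := (hT U).2
  refine ⟨max (k + 1) (l + 1), fun s hs => ?_⟩
  have h1 : (k : ℝ) + 1 < s.re := (le_max_left _ _).trans_lt hs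
  have h2 : (l : ℝ) + 1 < s.re := (le_max_right _ _).trans_lt hs
  exact ⟨euler_add h.pts (hT Z).1 (hT U).1 hk hl h1 h2, euler_ne (hT Z).1 hk h1,
    euler_ne (hT U).1 hl h2⟩

theorem soule_total (hT : IsArith T) {Z X U : W} (h : IsLoc T Z X U) (hZ : Soule T Z)
    (hU : Soule T U) : Soule T X := by
  obtain ⟨f, hf⟩ := hZ.continuation
  obtain ⟨g, hg⟩ := hU.continuation
  have hz : IsZeta (T.pts X) (f * g) := by
    obtain ⟨hf1, σ, hσ⟩ := hf
    obtain ⟨hg1, τ, hτ⟩ := hg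
    obtain ⟨ρ, hρ⟩ := euler_loc hT h
    refine ⟨fun z => (hf1 z).mul (hg1 z), max ρ (max σ τ), fun s hs => ?_⟩
    rw [(hρ s ((le_max_left _ _).trans_lt hs)).1, Pi.mul_apply,
      hσ s (((le_max_left _ _).trans (le_max_right _ _)).trans_lt hs),
      hτ s (((le_max_right _ _).trans (le_max_right _ _)).trans_lt hs)]
  have hfin : ∀ n, Fin' ℚ (fun i => T.M X i n) := fun n => fin_total h n (hZ.fin' n) (hU.fin' n)
  refine Soule.mk' hfin hz fun n => ?_
  rw [meromorphicOrderAt_mul (hf.1 _) (hg.1 _), hZ.order f hf, hU.order g hg,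
    chi_loc h n (hZ.fin' n) (hfin n) (hU.fin' n)]
  push_cast
  rfl

theorem soule_div {Y : W} {f g : ℂ → ℂ} (hfin : ∀ n, Fin' ℚ (fun i => T.M Y i n))
    (hf : Meromorphic f) (hg : Meromorphic g) {a b : ℤ → ℤ}
    (hfo : ∀ n : ℤ, meromorphicOrderAt f n = (a n : ℤ))
    (hgo : ∀ n : ℤ, meromorphicOrderAt g n = (b n : ℤ))
    (hz : ∃ σ : ℝ, ∀ s : ℂ, σ < s.re → euler (T.pts Y) s * g s = f s ∧ g s ≠ 0)
    (hab : ∀ n, chi T Y n = a n - b n) : Soule T Y := by
  have hzz : IsZeta (T.pts Y) (f / g) := by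
    obtain ⟨σ, hσ⟩ := hz
    refine ⟨fun z => (hf z).div (hg z), σ, fun s hs => ?_⟩
    obtain ⟨h1, h2⟩ := hσ s hs
    rw [Pi.div_apply, ← h1, mul_div_cancel_right₀ _ h2]
  refine Soule.mk' hfin hzz fun n => ?_
  rw [meromorphicOrderAt_div (hf _) (hg _), hfo, hgo, hab, ← WithTop.LinearOrderedAddCommGroup.coe_sub]

theorem soule_closed (hT : IsArith T) {Z X U : W} (h : IsLoc T Z X U) (hX : Soule T X)
    (hU : Soule T U) : Soule T Z := by
  obtain ⟨f, hf⟩ := hX.continuation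
  obtain ⟨g, hg⟩ := hU.continuation
  have hfin : ∀ n, Fin' ℚ (fun i => T.M Z i n) := fun n => fin_closed h n (hX.fin' n) (hU.fin' n)
  refine soule_div hfin hf.1 hg.1 (hX.order f hf) (hU.order g hg) ?_ fun n => ?_
  · obtain ⟨-, σ, hσ⟩ := hf
    obtain ⟨-, τ, hτ⟩ := hg
    obtain ⟨ρ, hρ⟩ := euler_loc hT h
    refine ⟨max ρ (max σ τ), fun s hs => ?_⟩
    obtain ⟨h1, -, h3⟩ := hρ s ((le_max_left _ _).trans_lt hs)
    rw [hσ s (((le_max_left _ _).trans (le_max_right _ _)).trans_lt hs),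
      hτ s (((le_max_right _ _).trans (le_max_right _ _)).trans_lt hs)]
    exact ⟨h1.symm, h3⟩
  · rw [chi_loc h n (hfin n) (hX.fin' n) (hU.fin' n), add_sub_cancel_right]

theorem soule_opened (hT : IsArith T) {Z X U : W} (h : IsLoc T Z X U) (hZ : Soule T Z)
    (hX : Soule T X) : Soule T U := by
  obtain ⟨f, hf⟩ := hX.continuation
  obtain ⟨g, hg⟩ := hZ.continuation
  have hfin : ∀ n, Fin' ℚ (fun i => T.M U i n) := fun n => fin_opened h n (hZ.fin' n) (hX.fin' n)
  refine soule_div hfin hf.1 hg.1 (hX.order f hf) (hZ.order g hg) ?_ fun n => ?_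
  · obtain ⟨-, σ, hσ⟩ := hf
    obtain ⟨-, τ, hτ⟩ := hg
    obtain ⟨ρ, hρ⟩ := euler_loc hT h
    refine ⟨max ρ (max σ τ), fun s hs => ?_⟩
    obtain ⟨h1, h2, -⟩ := hρ s ((le_max_left _ _).trans_lt hs)
    rw [hσ s (((le_max_left _ _).trans (le_max_right _ _)).trans_lt hs),
      hτ s (((le_max_right _ _).trans (le_max_right _ _)).trans_lt hs), h1, mul_comm]
    exact ⟨rfl, h2⟩
  · rw [chi_loc h n (hZ.fin' n) (hX.fin' n) (hfin n), add_sub_cancel_left]

/-- products of translates -/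
theorem prod_order {I : Type} [Fintype I] {Y : I → W} (r : I → ℤ) (hY : ∀ l, Soule T (Y l)) :
    ∃ f : ℂ → ℂ, Meromorphic f ∧
      (∀ n : ℤ, meromorphicOrderAt f n = ((∑ l, chi T (Y l) (n + r l) : ℤ) : WithTop ℤ)) ∧
      ∃ σ : ℝ, ∀ s : ℂ, σ < s.re → f s = ∏ l, euler (T.pts (Y l)) (s + r l) := by
  choose F hF using fun l => (hY l).continuation
  have hmer : ∀ l, Meromorphic (F l ∘ (· + (r l : ℂ))) := by
    intro l z
    exact meromorphicAt_comp_add_const_iff_meromorphicAt.2 ((hF l).1 _)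
  refine ⟨∏ l, F l ∘ (· + (r l : ℂ)), ?_, fun n => ?_, ?_⟩
  · intro z
    exact MeromorphicAt.prod fun l _ => hmer l z
  · rw [meromorphicOrderAt_prod fun l _ => hmer l _]
    rw [WithTop.coe_sum]
    refine Finset.sum_congr rfl fun l _ => ?_
    rw [meromorphicOrderAt_comp_add_const_eq_meromorphicOrderAt, ← (hY l).order (F l) (hF l)]
    push_cast
    rfl
  · choose σ hσ using fun l => (hF l).2
    obtain ⟨M, hM⟩ := Finite.exists_le fun l => σ l - r l
    refine ⟨M, fun s hs => ?_⟩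
    rw [Finset.prod_apply]
    refine Finset.prod_congr rfl fun l _ => ?_
    rw [Function.comp_apply]
    apply hσ
    rw [Complex.add_re, Complex.intCast_re]
    have := hM l
    linarith

theorem prod_ne (hT : IsArith T) {I : Type} [Fintype I] (Y : I → W) (r : I → ℤ) :
    ∃ σ : ℝ, ∀ s : ℂ, σ < s.re → ∏ l, euler (T.pts (Y l)) (s + r l) ≠ 0 := by
  choose k hk using fun l => (hT (Y l)).2
  obtain ⟨M, hM⟩ := Finite.exists_le fun l => (k l : ℝ) + 1 - r l
  refine ⟨M, fun s hs => ?_⟩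
  rw [Finset.prod_ne_zero_iff]
  intro l _
  refine euler_ne (hT _).1 (hk l) ?_
  rw [Complex.add_re, Complex.intCast_re]
  have := hM l
  linarith

theorem soule_sum (hT : IsArith T) {I J : Type} [Fintype I] [Fintype J] {X : W} {Z : J → W}
    {c : J → ℤ} {Y : I → W} {r : I → ℤ} (h : IsSum T X Z c Y r) (hZ : ∀ k, Soule T (Z k))
    (hY : ∀ l, Soule T (Y l)) : Soule T X := by
  obtain ⟨f, hf, hfo, σ, hσ⟩ := prod_order r hY
  obtain ⟨g, hg, hgo, τ, hτ⟩ := prod_order c hZ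
  obtain ⟨ρ, hρ⟩ := prod_ne hT Z c
  obtain ⟨υ, hυ⟩ := h.zeta
  have hYf : ∀ n l, Fin' ℚ (fun i => T.M (Y l) (i + 2 * r l) (n + r l)) := fun n l =>
    ((hY l).fin' (n + r l)).shift (2 * r l)
  have hZf : ∀ n k, Fin' ℚ (fun i => T.M (Z k) (i + 2 * c k) (n + c k)) := fun n k =>
    ((hZ k).fin' (n + c k)).shift (2 * c k)
  have hprod : ∀ n, Fin' ℚ fun i =>
      T.M X i n × ∀ k, T.M (Z k) (i + 2 * c k) (n + c k) := fun n =>
    (Fin'.pi (hYf n)).equiv fun i => (equiv_of_add (h.iso i n)).map LinearEquiv.symm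
  have hX : ∀ n, Fin' ℚ fun i => T.M X i n := fun n => (hprod n).fst
  refine soule_div hX hf hg hfo hgo ?_ fun n => ?_
  · refine ⟨max (max σ τ) (max ρ υ), fun s hs => ?_⟩
    have h1 : σ < s.re := ((le_max_left _ _).trans (le_max_left _ _)).trans_lt hs
    have h2 : τ < s.re := ((le_max_right _ _).trans (le_max_left _ _)).trans_lt hs
    have h3 : ρ < s.re := ((le_max_left _ _).trans (le_max_right _ _)).trans_lt hs
    have h4 : υ < s.re := ((le_max_right _ _).trans (le_max_right _ _)).trans_lt hs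
    rw [hσ s h1, hτ s h2]
    exact ⟨hυ s h4, hρ s h3⟩
  · have e1 : ech ℚ (fun i => T.M X i n × ∀ k, T.M (Z k) (i + 2 * c k) (n + c k)) =
        ech ℚ (fun i => ∀ l, T.M (Y l) (i + 2 * r l) (n + r l)) := ech_equiv fun i =>
          equiv_of_add (h.iso i n)
    rw [ech_prod (hX n) (Fin'.pi (hZf n)), ech_pi (hZf n), ech_pi (hYf n)] at e1
    have e2 : ∀ l, ech ℚ (fun i => T.M (Y l) (i + 2 * r l) (n + r l)) = chi T (Y l) (n + r l) :=
      fun l => ech_shift (K := ℚ) (A := fun i => T.M (Y l) i (n + r l)) (r l)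
    have e3 : ∀ k, ech ℚ (fun i => T.M (Z k) (i + 2 * c k) (n + c k)) = chi T (Z k) (n + c k) :=
      fun k => ech_shift (K := ℚ) (A := fun i => T.M (Z k) i (n + c k)) (c k)
    simp only [e2, e3] at e1
    rw [← e1, chi_eq, add_sub_cancel_right]

theorem soule_ring {X : W} {F : Type} [Field F] [NumberField F] (h : IsNumberRing T X F) :
    Soule T X := by
  obtain ⟨f, hf, ho⟩ := h.zeta
  have hbd : ∀ n, {i : ℤ | ¬ Subsingleton (T.M X i n)}.Finite := by
    intro n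
    refine (Set.finite_Icc (1 : ℤ) 2).subset fun i hi => ?_
    by_contra hcon
    apply hi
    refine h.zero i n ?_ ?_
    · rintro ⟨rfl, -⟩
      exact hcon ⟨by norm_num, le_rfl⟩
    · rintro ⟨rfl, -⟩
      exact hcon ⟨le_rfl, by norm_num⟩
  refine Soule.mk' (fun n => ⟨fun i => h.finite i n, hbd n⟩) hf fun n => ?_
  rw [ho]
  congr 1
  unfold chi
  rcases lt_trichotomy n 1 with hn | rfl | hn
  · rw [finsum_eq_single _ 1]
    · rw [h.rank n (by omega)]
      have : sgn 1 = 1 := by decide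
      rw [this, one_mul]
    · intro i hi
      have := h.zero i n (by rintro ⟨-, rfl⟩; exact absurd hn (lt_irrefl _)) (by rintro ⟨rfl, -⟩; exact hi rfl)
      rw [finrank_zero_of_subsingleton]
      simp
  · rw [finsum_eq_single _ 2]
    · rw [h.top]
      have : sgn 2 = -1 := by decide
      rw [this]
      simp [dedekindOrder]
    · intro i hi
      have := h.zero i 1 (by rintro ⟨rfl, -⟩; exact hi rfl) (by rintro ⟨-, h2⟩; norm_num at h2)
      rw [finrank_zero_of_subsingleton]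
      simp
  · have h0 : ∀ i, sgn i * (finrank ℚ (T.M X i n) : ℤ) = 0 := by
      intro i
      have := h.zero i n (by rintro ⟨-, rfl⟩; exact absurd hn (lt_irrefl _)) (by rintro ⟨-, h2⟩; omega)
      rw [finrank_zero_of_subsingleton]
      simp
    simp only [h0, finsum_zero]
    unfold dedekindOrder
    rw [if_pos hn.le, if_neg hn.ne']

end

end Pool.Agent.K3h9.SZ
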